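import Pool.Agent.T2H38.GE.Main
import Pool.Agent.T2H38.RN.Main

/-!
# Rational and numerical equivalence for varieties over finite fields generated by abelian varieties
with almost all slopes in given CM fields

An abelian variety over the field with `p ^ a` elements is modelled by `RedAV` (Honda, Tate): a
finite product of CM types `(E i, Φ i)` with Weil numbers `π i ∈ E i` that satisfy the formula of
Shimura and Taniyama; its cohomology of degree `n`, with coefficients in an algebraically closed field
`Ω`, consists of the alternating `n`-forms on the Tate module `Ω ⊗ H_1`, on which the Frobenius
endomorphism acts by `π`. We fix an isomorphism `ν` of the algebraic closure of `ℚ_p` with `ℂ`; it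
defines a `p`-adic valuation of `ℂ`, with the value one at `p`. The automorphisms of `ℂ` which do not
change it are its decomposition group (`Preserves`).

**Slopes.** Let `K i` be finitely many CM fields of degrees `2 g i`; nothing is assumed about their
Galois groups. Consider families `u` of odd functions `u i` on the complex embeddings of the fields
`K i` which are invariant under the decomposition group, that is, functions of the places of the
fields `K i` above `p` which change their signs under complex conjugation (`IsSlopes`). They form a
real vector space; its dimension `r` (`numPairs`) is the number of the pairs of complex conjugate places
`w ≠ conj w` above `p`, so `r = ∑ g i` if `p` splits completely. By Honda and Tate, if the values of `u`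
are rational numbers between `-1` and `1` then there is, for each `i`, exactly one isogeny class of
abelian varieties over an algebraic closure of the field with `p` elements that are powers of a simple
one and for which some power of the Frobenius endomorphism is in `K i`, with the slopes `(1 + u i) / 2`.
For a family `u` let `𝒞` (`OfSlopes`) be the class of the abelian varieties `Y` each of whose factors
is supersingular or has a Frobenius endomorphism some power of which is, for some `i`, a number in
`K i` with the slopes prescribed by `u i` (up to a scalar which depends on `Y` and `i`). So `Y` is, over an
algebraic closure, isogenous to a product of powers of these abelian varieties (all exponents and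
dimensions are allowed) and of a supersingular one.

`Homology Ω V` are data of motivic homology `M X n j = H_n^M(X, ℚ(j)) = CH_j(X, n - 2 j) ⊗ ℚ` (higher
Chow groups) and of `ℓ`-adic homology `E X n j = H_n(X, ℚ_ℓ(j))` of schemes `X : V` of finite type over
finite fields, with the Frobenius and the regulator. Let `𝒢` (`Generated`) be the smallest class of
schemes that contains those with the homology groups of abelian varieties in `𝒞`, that is closed
under direct summands of finite sums of twists of motives, and that contains all of a closed subscheme
`Z` of `X`, `X` and `X ∖ Z` if it contains two of them. For example, it contains all products of curves
whose Jacobians are in `𝒞`, symmetric powers of such products, projective bundles and blow-ups of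
smooth members along smooth members. Let `X` be a smooth projective member of `𝒢` of pure dimension
`d`. Then `M X a b` is the motivic cohomology group `H^(2 d - a)(X, ℚ(d - b))`, in particular
`CH^(d - b)(X)_ℚ` for `a = 2 b`, and the cup products followed by the degree are pairings of `M X a b` with
`M X (2 d - a) (d - b)` (`CupData`, `IsCup`: with the corresponding `ℓ`-adic pairings, for which
Poincaré duality holds, and with the compatibility of the regulators). `Holds ν K u` says that for
all these `X` all these pairings are perfect with real coefficients; so
**the pairing `CH^n(X)_ℝ × CH^(d - n)(X)_ℝ → ℝ` is perfect for all `n`**: rational and numerical
equivalence coincide on `X` up to torsion.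

**Theorem.** (1) Let `S` be a finite symmetric set of numbers which contains zero. There are
`|S| ^ r` families `u` of slopes with values in `S`. **For all but at most
`(∑ g i) |S| ^ (r - 1)` of them all these pairings are perfect.** So for fixed fields `K i` and a fixed
prime number `p` the conclusion holds for 100 percent of the families of isogeny classes, as the
denominators of the slopes grow; for all sizes of `S` the proportion of the exceptions is at most
`∑ g i / |S|`. Here we assume that there is at least one family `u` without relations
(`IsGeneric`).

(2) There is such a family if the fields `K i` are pairwise independent (this is no condition for one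
field) and each of them has a place of degree one above `p`, for instance if `p` splits completely
in all `K i`.

(3) If the fields are pairwise independent then the pairings are perfect for all families `u` with a
dominating value (`IsDominated`): for each `i` there is a place `w` of degree one where `|u i w|` is larger than
the sum of the values of `|u i|` for the other pairs of complex conjugate embeddings.

The new ingredient is the theorem that all multiplicative relations between the Frobenius eigenvalues
of `Y` come from the pairs of complex conjugate ones, in these cases. A family `u` has nontrivial
relations if and only if the conjugates `u ∘ σ` do not span the space of the odd functions. This is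
the vanishing of certain determinants of degree `∑ g i` in the `r` coordinates of `u`, at least one
of which is not identically zero; the exceptions are then counted by the lemma of Schwartz and
Zippel. For independent fields the relations split since the parts of a relation that belong to
different fields are orthogonal to each other.

The bound in the starting files for the number of the exceptional families of slopes is for the
`2 ^ (∑ g i)` families of given absolute values `|u|` and is nontrivial for large `g i`; here the fields
are fixed (they may be of small degree, and `p` need not split) and the absolute values vary.

Properties of the theory of cycles that are used for the abelian varieties `Y` (`IsChow`,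
`IsMotivic`): Poincaré duality, the formal properties of correspondences, the nilpotence of
homologically trivial correspondences (Kimura), the operation of the Frobenius endomorphism on higher
Chow groups, the vanishing of the higher rational `K`-groups of a finite field (Quillen), and the
algebraicity of the classes in `Alg` (of which only products of classes of divisors matter here,
theorem of Tate).
-/

set_option autoImplicit false

namespace Pool.Agent.Results.MP_4960c7_ag.GenericSlopes

open NumberField Module Pool.Agent.W495.TA Pool.Agent.W495.FM
  Pool.Agent.X303.TBDual Pool.Agent.T2H38.RN Pool.Agent.T2H38.GE

/-- The intersection pairings (the cup products in motivic cohomology of all degrees) of the smooth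
projective varieties generated by abelian varieties with the slopes `u` are perfect with real
coefficients. -/
def Holds {p : ℕ} [Fact p.Prime] (ν : PadicAlgCl p ≃+* ℂ) {I : Type} (K : I → Type)
    [∀ i, Field (K i)] (u : Family K) : Prop :=
  ∀ (Ω : Type) [Field Ω] [IsAlgClosed Ω] [CharZero Ω] (V : Type) (T : Homology Ω V),
    IsHomology T → ∀ X : V, Generated T (IsAbelianOfSlopes K ν u T) X →
      ∀ (d : ℤ) (D : CupData T X d), IsCup D → ∀ a b : ℤ, IsPerfectReal (D.cup a b)

/-- The exceptional families of slopes with values in `S`. -/
def exceptional {p : ℕ} [Fact p.Prime] (ν : PadicAlgCl p ≃+* ℂ) {I : Type} (K : I → Type)
    [∀ i, Field (K i)] (S : Finset ℝ) : Set (Family K) :=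
  {u | u ∈ families K ν S ∧ ¬ Holds ν K u}

/-- **The intersection pairings are perfect for almost all slopes in given CM fields.** -/
theorem result (p : ℕ) [Fact p.Prime] (ν : PadicAlgCl p ≃+* ℂ) {I : Type} [Fintype I]
    (K : I → Type) [∀ i, Field (K i)] [∀ i, NumberField (K i)] [∀ i, IsCMField (K i)] :
    (∀ g : I → ℕ, (∀ i, finrank ℚ (K i) = 2 * g i) → HasGeneric K ν →
      ∀ S : Finset ℝ, 0 ∈ S → (∀ x ∈ S, -x ∈ S) →
        (families K ν S).ncard = S.card ^ numPairs K ν ∧
        (exceptional ν K S).ncard ≤ (∑ i, g i) * S.card ^ (numPairs K ν - 1)) ∧
    (Independent K → (HaveDegreeOne K ν → HasGeneric K ν) ∧
      ∀ u, IsDominated K u → Holds ν K u) := by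
  have h1 : ∀ u : Family K, IsGeneric K u → Holds ν K u :=
    fun u hu Ω _ _ _ V T hT X hX d D hD a b => perfectReal hT (tb_slopes hu hT hX) hD a b
  refine ⟨fun g hg hgen S hS0 hS => ?_,
    fun hind => ⟨exists_generic hind, fun u hu => h1 u (generic_of_dominated hind hu)⟩⟩
  obtain ⟨h2, h3, h4⟩ := ncard_exceptions hg hgen S
  refine ⟨h4 hS0 hS, (Set.ncard_le_ncard ?_ (h3.subset fun u hu => hu.1)).trans h2⟩
  exact fun u hu => ⟨hu.1, fun h => hu.2 (h1 u h)⟩

end Pool.Agent.Results.MP_4960c7_ag.GenericSlopes
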