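import Pool.Agent.T2H38.RN.Main
import Pool.Agent.R937.PZ.Mot

/-!
# Rational and numerical equivalence for varieties over finite fields generated by abelian varieties of
dimension at most five and by products of elliptic curves, abelian surfaces and non-ordinary
threefolds

An abelian variety over the field with `p ^ a` elements is modelled by `RedAV` (Honda, Tate): a
finite product of CM types `(E i, Φ i)` with Weil numbers `π i ∈ E i` that satisfy the formula of
Shimura and Taniyama; its cohomology of degree `n`, with coefficients in an algebraically closed field
`Ω`, consists of the alternating `n`-forms on the Tate module `Ω ⊗ H_1`, on which the Frobenius
endomorphism acts by `π`.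

We consider (`IsGoodAVP`) the abelian varieties `Y` of the following kinds:

* all abelian varieties of dimension at most five;
* the abelian varieties that are isogenous, over an algebraic closure, to a product of a supersingular
  abelian variety of any dimension and of abelian varieties of dimension at most three (any number, any
  multiplicity), such that any two factors of dimension three whose CM fields have the same Galois
  closure satisfy one of the following: their fields are Galois over `ℚ`; one of them is supersingular;
  they are isogenous; neither of them is ordinary and their `p`-ranks are not `{1, 2}`.

So `Y` may be any product of elliptic curves, of abelian surfaces and of abelian threefolds that all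
have `p`-rank two, or that all have `p`-rank zero or one.

`Homology Ω V` are data of motivic homology `M X n j = H_n^M(X, ℚ(j)) = CH_j(X, n - 2 j) ⊗ ℚ` (higher
Chow groups) and of `ℓ`-adic homology `E X n j = H_n(X, ℚ_ℓ(j))` of schemes `X : V` of finite type over
finite fields, with the Frobenius and the regulator. Let `𝒢` (`Generated`) be the smallest class of
schemes that contains those with the homology groups of the abelian varieties above, that is closed
under direct summands of finite sums of twists of motives, and that contains all of a closed subscheme
`Z` of `X`, `X` and `X ∖ Z` if it contains two of them. For example, it contains all products of curves
of genus at most two, symmetric powers of such products, the varieties whose motive is a direct summand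
of that of an abelian variety of dimension at most five, projective bundles and blow-ups of smooth
members along smooth members.

Let `X` be a smooth projective member of `𝒢` of pure dimension `d`. Then `M X a b` is the motivic
cohomology group `H^(2 d - a)(X, ℚ(d - b))`, in particular `CH^(d - b)(X)_ℚ = CH_b(X)_ℚ` for `a = 2 b`,
and the cup products followed by the degree are pairings of `M X a b` with `M X (2 d - a) (d - b)`, in
particular of `CH^n(X)_ℚ` with `CH^(d - n)(X)_ℚ` for `a = 2 b`, `n = d - b` (`CupData`, `IsCup`: with
the corresponding `ℓ`-adic pairings, for which Poincaré duality holds, and with the compatibility of
the regulators).

**Theorem.** All these pairings are perfect with real coefficients (`IsPerfectReal`). So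
**the pairing `CH^n(X)_ℝ × CH^(d - n)(X)_ℝ → ℝ` is perfect for all `n`**: rational and numerical
equivalence coincide on `X` up to torsion, and the spaces are finite-dimensional; the other motivic
cohomology groups with real coefficients, also, are finite-dimensional and dual to each other.

Properties of the theory of cycles that are used for the abelian varieties `Y` (`IsChowS`,
`IsMotivic`): Poincaré duality, the formal properties of correspondences, the nilpotence of
homologically trivial correspondences (Kimura), the operation of the Frobenius endomorphism on higher
Chow groups, the vanishing of the higher rational `K`-groups of a finite field (Quillen), and the
algebraicity of the classes in `AlgS` (theorems of Tate, Markman and Ramón Marí). That all Tate classes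
on all powers of `Y` are in `AlgS`, and the conjecture `TB` for the members of `𝒢`, are in the starting
files (`Pool.Agent.R937.PG.tb_goodP`).
-/

set_option autoImplicit false

namespace Pool.Agent.Results.MP_4960c7_ag.NonOrdinaryThreefolds

open Pool.Agent.W495.TA Pool.Agent.W495.FM Pool.Agent.X303.TBDual Pool.Agent.T2H38.RN
open Pool.Agent.R937.PG

/-- The intersection pairings of the smooth projective varieties in the class generated by the abelian
varieties of dimension at most five and by the products of elliptic curves, abelian surfaces and
non-ordinary threefolds are perfect with real coefficients. -/
theorem result (p : ℕ) [Fact p.Prime] (ν : PadicAlgCl p ≃+* ℂ) (Ω : Type) [Field Ω]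
    [IsAlgClosed Ω] [CharZero Ω] (V : Type) (T : Homology Ω V) (hT : IsHomology T) (X : V)
    (hX : Generated T (IsGoodAbelianP p ν T) X) (d : ℤ) (D : CupData T X d) (hD : IsCup D) (a b : ℤ) :
    IsPerfectReal (D.cup a b) :=
  perfectReal hT (tb_goodP hT hX) hD a b

end Pool.Agent.Results.MP_4960c7_ag.NonOrdinaryThreefolds
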