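import Pool.Agent.T2H38.RN.Main
import Pool.Agent.T2H38.OB.Main

/-!
# Rational and numerical equivalence for varieties over finite fields generated by ordinary abelian
varieties in independent blocks

An abelian variety over the field with `p ^ a` elements is modelled by `RedAV` (Honda, Tate): a
finite product `X` of CM types `(E i, Φ i)` with Weil numbers `π i ∈ E i` that satisfy the formula of
Shimura and Taniyama; its cohomology of degree `n`, with coefficients in an algebraically closed field
`Ω`, consists of the alternating `n`-forms on the Tate module `Ω ⊗ H_1`, on which the Frobenius
endomorphism acts by `π`.

We consider (`IsOrdinaryBlocks`) the **ordinary** abelian varieties `Y`: the embedding `φ` of `E i`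
belongs to `Φ i` if and only if `φ (π i)` has slope one, and otherwise it has slope zero; so `X` is the
canonical lift of `Y`. The factors are divided into blocks, such that for each block there is an
automorphism of the field of complex numbers that acts as the complex conjugation on all embeddings
of the CM fields in this block and trivially on all embeddings of the CM fields in the other blocks
(for one block this is no condition). Each block is of one of the following kinds (`GoodBlock`):

* its factors have dimension at most three, and any two of them whose CM fields have the same Galois
  closure over `ℚ` have isomorphic CM types, unless these CM fields are Galois over `ℚ`;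
* its factors are factors (up to isogeny) of one abelian variety of CM type of dimension at most
  five, each with any multiplicity;
* its factors have the same CM type, with a CM field of degree at most fourteen;
* its factors are factors (up to isogeny) of one nondegenerate abelian variety of CM type, of
  arbitrary dimension, each with any multiplicity.

For example `Y` may be any power of any **simple ordinary abelian variety of dimension at most seven**,
any power of an ordinary abelian variety with nondegenerate canonical lift, of any dimension, or a
product of such powers for which the Galois closures of the CM fields are linearly disjoint.

`Homology Ω V` are data of motivic homology `M X n j = H_n^M(X, ℚ(j)) = CH_j(X, n - 2 j) ⊗ ℚ` (higher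
Chow groups) and of `ℓ`-adic homology `E X n j = H_n(X, ℚ_ℓ(j))` of schemes `X : V` of finite type over
finite fields, with the Frobenius and the regulator. Let `𝒢` (`Generated`) be the smallest class of
schemes that contains those with the homology groups of the abelian varieties above, that is closed
under direct summands of finite sums of twists of motives, and that contains all of a closed subscheme
`Z` of `X`, `X` and `X ∖ Z` if it contains two of them.

Let `X` be a smooth projective member of `𝒢` of pure dimension `d`. Then `M X a b` is the motivic
cohomology group `H^(2 d - a)(X, ℚ(d - b))`, in particular `CH^(d - b)(X)_ℚ = CH_b(X)_ℚ` for `a = 2 b`,
and the cup products followed by the degree are pairings of `M X a b` with `M X (2 d - a) (d - b)`, in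
particular of `CH^n(X)_ℚ` with `CH^(d - n)(X)_ℚ` for `a = 2 b`, `n = d - b` (`CupData`, `IsCup`: with
the corresponding `ℓ`-adic pairings, for which Poincaré duality holds, and with the compatibility of
the regulators).

**Theorem.** All these pairings are perfect with real coefficients (`IsPerfectReal`). So
**the pairing `CH^n(X)_ℝ × CH^(d - n)(X)_ℝ → ℝ` is perfect for all `n`**: rational and numerical
equivalence coincide on `X` up to torsion, and the spaces are finite-dimensional; the other motivic
cohomology groups with real coefficients, also, are finite-dimensional and dual to each other.

Properties of the theory of cycles that are used for the abelian varieties `Y` (`IsChowO`,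
`IsMotivic`): Poincaré duality, the formal properties of correspondences, the nilpotence of
homologically trivial correspondences (Kimura), the operation of the Frobenius endomorphism on higher
Chow groups, the vanishing of the higher rational `K`-groups of a finite field (Quillen), and the
algebraicity of the Tate classes over the ground field which are combinations of reductions of classes
on the canonical lift in the ring generated by classes of divisors and by pull-backs of split Weil
classes on abelian fourfolds and sixfolds (theorems of Lefschetz and Markman). That all Tate
classes on `Y` are such combinations is in the starting files (`Pool.Agent.W547.UB.tate_finiteField`).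
The conjecture `TB` for the class `𝒢` (`tb_ordinary`) is deduced from it here; the method is due to
Soulé, Geisser, Kahn and Jannsen.
-/

set_option autoImplicit false

namespace Pool.Agent.Results.MP_4960c7_ag.OrdinaryInBlocks

open Pool.Agent.W495.TA Pool.Agent.W495.FM Pool.Agent.X303.TBDual Pool.Agent.T2H38.RN
open Pool.Agent.T2H38.OB

/-- The intersection pairings of the smooth projective varieties in the class generated by the ordinary
abelian varieties in independent blocks are perfect with real coefficients. -/
theorem result (p : ℕ) [Fact p.Prime] (ν : PadicAlgCl p ≃+* ℂ) (Ω : Type) [Field Ω]
    [IsAlgClosed Ω] [CharZero Ω] (V : Type) (T : Homology Ω V) (hT : IsHomology T) (X : V)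
    (hX : Generated T (IsOrdinaryAbelian p ν T) X) (d : ℤ) (D : CupData T X d) (hD : IsCup D) (a b : ℤ) :
    IsPerfectReal (D.cup a b) :=
  perfectReal hT (tb_ordinary hT hX) hD a b

end Pool.Agent.Results.MP_4960c7_ag.OrdinaryInBlocks
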